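import Pool.Agent.H62.UN.Targets

/-!
# Row DIV of the board unt_modules: functions on the chart which vanish on the fibre
-/

set_option autoImplicit false

namespace Pool.Agent.H38.UNT

open Polynomial Pool.Agent.H17.UN Pool.Agent.H62.UN

/-- `x - e` is not zero on a chart. -/
theorem div_ne {k E : Type} [Field k] [Field E] [Algebra k E] {P Q : k[X]} {x y z : E}
    (h : Chart P Q x y z) (e : k) : x - algebraMap k E e ≠ 0 := by
  intro h0
  have ht : Transcendental k x := h.ind.transcendental 0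
  have h1 : x = algebraMap k E e := sub_eq_zero.1 h0
  apply ht
  rw [h1]
  exact isAlgebraic_algebraMap e

/-- one component of a degenerate fibre -/
theorem div_comp {k E : Type} [Field k] [CharZero k] [Field E] [Algebra k E]
    (hDEG : T_DEG) (hNOE : T_NOE) (hDVC : T_DVC) {P Q : k[X]} {x y z : E}
    (h : Chart P Q x y z) (f : CR P Q ≃ₐ[k] cr k x y z) (hfx : (f (xC P Q) : E) = x) (e : k)
    (l : k[X]) (hl0 : l ≠ 0) (hl : l ^ 2 = C (P.eval e) + C (Q.eval e) * X ^ 2)
    (a : cr k x y z)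
    (ha : ∀ o : E → ℤ, IsVal o → Ctr (cr k x y z) o → 0 < o (x - algebraMap k E e) →
      0 < o (a : E)) :
    ∃ φ : CR P Q →ₐ[k] k[X], φ (xC P Q) = C e ∧ φ (zC P Q) = X ∧ φ (yC P Q) = l ∧
      φ (f.symm a) = 0 := by
  obtain ⟨⟨c0, hc0⟩, φ, hφx, hφz, hφy, hker⟩ := hDEG k P Q e l hl
  obtain ⟨hN, hF⟩ := hNOE k E x y z h.gen
  set g : cr k x y z →ₐ[k] k[X] := φ.comp f.symm.toAlgHom with hg
  have hgf : ∀ b : CR P Q, g (f b) = φ b := by
    intro b
    rw [hg]
    simp
  have hga : ∀ b : cr k x y z, g b = φ (f.symm b) := by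
    intro b
    rw [hg]
    simp
  have hφl : φ (aeval (zC P Q) l) = l := by
    rw [← Polynomial.aeval_algHom_apply, hφz, Polynomial.aeval_X_left_apply]
  have hϖE : ((f (xC P Q - algebraMap k (CR P Q) e) : cr k x y z) : E) =
      x - algebraMap k E e := by
    rw [map_sub, AlgEquiv.commutes]
    push_cast
    rw [hfx]
  obtain ⟨o, ho1, ho2, ho3, ho4⟩ := hDVC k E (cr k x y z) hN hF (RingHom.ker g.toRingHom)
    (f (xC P Q - algebraMap k (CR P Q) e)) (f (yC P Q + aeval (zC P Q) l))
    (RingHom.ker_isPrime _)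
    (by
      rw [RingHom.mem_ker]
      show g _ = 0
      rw [hgf, map_sub, hφx, AlgHom.commutes]
      exact sub_self _)
    (by
      intro h0
      have := congrArg (fun t : cr k x y z => (t : E)) h0
      simp only [hϖE] at this
      exact div_ne h e this)
    (by
      rw [RingHom.mem_ker]
      show ¬ g _ = 0
      rw [hgf, map_add, hφy, hφl, ← two_mul]
      exact mul_ne_zero two_ne_zero hl0)
    (by
      intro b hb
      rw [RingHom.mem_ker] at hb
      have hb' : φ (f.symm b) = 0 := by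
        rw [← hga]
        exact hb
      obtain ⟨c, d, hcd⟩ := hker _ hb'
      refine ⟨f ((yC P Q + aeval (zC P Q) l) * c + c0 * d), ?_⟩
      have hb2 : b = f (f.symm b) := (f.apply_symm_apply b).symm
      rw [hb2, hcd, ← map_mul, ← map_mul]
      congr 1
      linear_combination d * hc0)
  refine ⟨φ, hφx, hφz, hφy, ?_⟩
  have h1 : 0 < o (a : E) := ha o ho1 ho2 (by
    rw [← hϖE, ho3]
    exact one_pos)
  have h2 := ho4 a h1
  rw [RingHom.mem_ker] at h2
  rw [← hga]
  exact h2

theorem pf_DIV : T_DIV := by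
  intro hNFI hREG hDEG hDG2 hNOE hDVC k E _ _ _ _ _ P Q x y z h e a ha ha0 hval
  obtain ⟨f, hfx, hfy, hfz⟩ := hNFI k E P Q x y z h
  have hϖE : ((f (xC P Q - algebraMap k (CR P Q) e) : cr k x y z) : E) =
      x - algebraMap k E e := by
    rw [map_sub, AlgEquiv.commutes]
    push_cast
    rw [hfx]
  -- it suffices to divide in the chart ring
  have hred : (∃ c : CR P Q, f.symm ⟨a, ha⟩ = (xC P Q - algebraMap k (CR P Q) e) * c) →
      ∃ b ∈ cr k x y z, a = (x - algebraMap k E e) * b := by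
    rintro ⟨c, hc⟩
    refine ⟨(f c : E), (f c).2, ?_⟩
    have h1 : (⟨a, ha⟩ : cr k x y z) = f ((xC P Q - algebraMap k (CR P Q) e) * c) := by
      rw [← hc, f.apply_symm_apply]
    have h2 := congrArg (fun t : cr k x y z => (t : E)) h1
    simp only [map_mul] at h2
    rw [h2]
    push_cast
    rw [← hϖE]
  apply hred
  by_cases hPQ : (P * Q).eval e = 0
  · -- a degenerate fibre
    have hcop : IsCoprime P Q := h.sep.isCoprime
    have hne : ¬ (P.eval e = 0 ∧ Q.eval e = 0) := by
      rintro ⟨h1, h2⟩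
      obtain ⟨u, v, huv⟩ := hcop
      have h3 := congrArg (Polynomial.eval e) huv
      simp [h1, h2] at h3
    obtain ⟨l, hl0, hl⟩ : ∃ l : k[X], l ≠ 0 ∧
        l ^ 2 = C (P.eval e) + C (Q.eval e) * X ^ 2 := by
      rw [Polynomial.eval_mul, mul_eq_zero] at hPQ
      rcases hPQ with hP | hQ
      · have hQ : Q.eval e ≠ 0 := fun h0 => hne ⟨hP, h0⟩
        obtain ⟨ρ, hρ⟩ := IsAlgClosed.exists_pow_nat_eq (Q.eval e) (n := 2) two_pos
        have hρ0 : ρ ≠ 0 := by
          intro h0
          rw [h0] at hρ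
          apply hQ
          rw [← hρ]
          ring
        refine ⟨C ρ * X, mul_ne_zero (C_ne_zero.2 hρ0) X_ne_zero, ?_⟩
        rw [hP, mul_pow, ← C_pow, hρ, C_0, zero_add]
      · have hP : P.eval e ≠ 0 := fun h0 => hne ⟨h0, hQ⟩
        obtain ⟨ρ, hρ⟩ := IsAlgClosed.exists_pow_nat_eq (P.eval e) (n := 2) two_pos
        have hρ0 : ρ ≠ 0 := by
          intro h0
          rw [h0] at hρ
          apply hP
          rw [← hρ]
          ring
        refine ⟨C ρ, C_ne_zero.2 hρ0, ?_⟩
        rw [hQ, ← C_pow, hρ, C_0, zero_mul, add_zero]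
    obtain ⟨φ, hφx, hφz, hφy, hφ⟩ := div_comp hDEG hNOE hDVC h f hfx e l hl0 hl ⟨a, ha⟩ hval
    obtain ⟨ψ, hψx, hψz, hψy, hψ⟩ := div_comp hDEG hNOE hDVC h f hfx e (-l)
      (neg_ne_zero.2 hl0) (by rw [neg_sq]; exact hl) ⟨a, ha⟩ hval
    exact hDG2 k P Q e l hl0 φ ψ hφx hφz hφy hψx hψz hψy _ hφ hψ
  · -- a smooth fibre
    obtain ⟨hN, hF⟩ := hNOE k E x y z h.gen
    obtain ⟨hpr, -⟩ := hREG k P Q e hPQ
    have hpr2 : (Ideal.comap f.symm.toAlgHom.toRingHom
        (Ideal.span {xC P Q - algebraMap k (CR P Q) e})).IsPrime := Ideal.IsPrime.comap _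
    obtain ⟨o, ho1, ho2, ho3, ho4⟩ := hDVC k E (cr k x y z) hN hF
      (Ideal.comap f.symm.toAlgHom.toRingHom (Ideal.span {xC P Q - algebraMap k (CR P Q) e}))
      (f (xC P Q - algebraMap k (CR P Q) e)) 1 hpr2
      (by
        rw [Ideal.mem_comap]
        show f.symm (f _) ∈ _
        rw [f.symm_apply_apply]
        exact Ideal.subset_span rfl)
      (by
        intro h0
        have := congrArg (fun t : cr k x y z => (t : E)) h0
        simp only [hϖE] at this
        exact div_ne h e this)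
      (fun h1 => hpr2.ne_top ((Ideal.eq_top_iff_one _).2 h1))
      (by
        intro b hb
        rw [Ideal.mem_comap] at hb
        obtain ⟨c, hc⟩ := Ideal.mem_span_singleton'.1 hb
        refine ⟨f c, ?_⟩
        rw [one_mul, ← map_mul, mul_comm, hc]
        exact (f.apply_symm_apply b).symm)
    have h1 : 0 < o a := hval o ho1 ho2 (by
      rw [← hϖE, ho3]
      exact one_pos)
    have h2 := ho4 ⟨a, ha⟩ h1
    rw [Ideal.mem_comap] at h2
    obtain ⟨c, hc⟩ := Ideal.mem_span_singleton'.1 h2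
    exact ⟨c, by rw [mul_comm, hc]; rfl⟩

end Pool.Agent.H38.UNT
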